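import Mathlib

set_option autoImplicit false
open Set Topology
open scoped ContDiff

namespace Pool.Agent.H289R3.FQ

/-- `(ℝ² ∖ S) × ℝ^(n-1)`, an open subset of `ℝ² × ℝ^(n-1)`; the plane `ℝ²` is written as `ℂ`. -/
def Total (n : ℕ) (S : Set ℂ) : Set (ℂ × EuclideanSpace ℝ (Fin (n - 1))) := {p | p.1 ∉ S}

/-- `Φ` is a smooth complete flow on the open subset `X` of the normed space `V`. -/
structure IsFlow {V : Type*} [NormedAddCommGroup V] [NormedSpace ℝ V] (X : Set V)
    (Φ : ℝ → V → V) : Prop where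
  smooth : ContDiffOn ℝ ∞ (fun p : ℝ × V => Φ p.1 p.2) (univ ×ˢ X)
  mapsTo : ∀ t, MapsTo (Φ t) X X
  zero : ∀ x ∈ X, Φ 0 x = x
  add : ∀ s t, ∀ x ∈ X, Φ (s + t) x = Φ s (Φ t x)

/-- The open subset `M` of the normed space `F` is the quotient of the flow `Φ` on the open subset
`X` of `V`, with quotient map `π`: the map `π` sends `X` onto `M`, its fibres are the orbits of
`Φ`, `M` has the quotient topology, and `π` is a smooth submersion at all non-fixed points (so
that the smooth structure of `M` is the one inherited from the flow). -/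
structure IsQuotientOfFlow {V F : Type*} [NormedAddCommGroup V] [NormedSpace ℝ V]
    [NormedAddCommGroup F] [NormedSpace ℝ F] (X : Set V) (Φ : ℝ → V → V) (M : Set F)
    (π : V → F) : Prop where
  image : π '' X = M
  fibre : ∀ x ∈ X, ∀ y ∈ X, π x = π y ↔ ∃ t, Φ t x = y
  quotient : ∀ U ⊆ M, IsOpen U ↔ IsOpen (X ∩ π ⁻¹' U)
  smooth : ∀ x ∈ X, (∃ t, Φ t x ≠ x) → ContDiffAt ℝ ∞ π x
  submersion : ∀ x ∈ X, (∃ t, Φ t x ≠ x) → Function.Surjective (fderiv ℝ π x)

/-- The open subset `M` of the `n`-dimensional space `F` is realized as the quotient of a flow on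
`(ℝ² ∖ S) × ℝ^(n-1)` for some discrete closed subset `S` of the plane. -/
def RealizedAsQuotient (n : ℕ) {F : Type*} [NormedAddCommGroup F] [NormedSpace ℝ F] (M : Set F) :
    Prop :=
  ∃ (S : Set ℂ) (Φ : ℝ → ℂ × EuclideanSpace ℝ (Fin (n - 1)) → ℂ × EuclideanSpace ℝ (Fin (n - 1)))
    (π : ℂ × EuclideanSpace ℝ (Fin (n - 1)) → F),
    IsClosed S ∧ IsDiscrete S ∧ IsFlow (Total n S) Φ ∧ IsQuotientOfFlow (Total n S) Φ M π

/-- The product `(ℂ ∖ {0})⁵` of five punctured planes, a connected open subset of `ℂ⁵` and hence an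
oriented manifold of (real) dimension `10`. -/
def PuncturedFive : Set (Fin 5 → ℂ) := {z | ∀ j, z j ≠ 0}

end Pool.Agent.H289R3.FQ
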