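import Pool.Agent.H289R3.FQ.Defs

set_option autoImplicit false
open Set Topology Filter

namespace Pool.Agent.H289R3.FQ

/-- A continuous real flow `φ` on `Y` with open continuous quotient map `f`, whose fibres are the
orbits, and which has flow boxes at non-fixed points. -/
structure QFlow {Y N : Type*} [TopologicalSpace Y] [TopologicalSpace N] (φ : ℝ → Y → Y)
    (f : Y → N) : Prop where
  cont : Continuous (fun p : ℝ × Y => φ p.1 p.2)
  zero : ∀ y, φ 0 y = y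
  add : ∀ s t y, φ (s + t) y = φ s (φ t y)
  fcont : Continuous f
  fopen : IsOpenMap f
  fibre : ∀ x y, f x = f y ↔ ∃ t, φ t x = y
  box : ∀ x, (∃ t, φ t x ≠ x) → ∃ (s : N → Y) (U : Set N), IsOpen U ∧ f x ∈ U ∧
    ContinuousOn s U ∧ (∀ m ∈ U, f (s m) = m) ∧ s (f x) = x ∧
    ∀ ε > 0, ∃ W ∈ 𝓝 x, ∀ w ∈ W, f w ∈ U ∧ ∃ t, |t| < ε ∧ w = φ t (s (f w))

variable {Y N : Type*} [TopologicalSpace Y] [TopologicalSpace N] {φ : ℝ → Y → Y} {f : Y → N}

theorem QFlow.orbit_cont (h : QFlow φ f) (y : Y) : Continuous (fun t => φ t y) :=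
  h.cont.comp (continuous_id.prodMk continuous_const)

theorem QFlow.time_cont (h : QFlow φ f) (t : ℝ) : Continuous (φ t) :=
  h.cont.comp (continuous_const.prodMk continuous_id)

theorem QFlow.f_flow (h : QFlow φ f) (t : ℝ) (y : Y) : f (φ t y) = f y :=
  ((h.fibre y (φ t y)).2 ⟨t, rfl⟩).symm

theorem QFlow.fibre_eq (h : QFlow φ f) (y : Y) : f ⁻¹' {f y} = range (fun t => φ t y) := by
  ext z
  simp only [mem_preimage, mem_singleton_iff, mem_range]
  rw [eq_comm, h.fibre y z]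

theorem QFlow.conn (h : QFlow φ f) (n : N) : IsPreconnected (f ⁻¹' {n}) := by
  by_cases hn : ∃ y, f y = n
  · obtain ⟨y, rfl⟩ := hn
    rw [h.fibre_eq]
    exact isPreconnected_range (h.orbit_cont y)
  · have : f ⁻¹' {n} = ∅ := by
      ext z
      simp only [mem_preimage, mem_singleton_iff, mem_empty_iff_false, iff_false]
      exact fun hz => hn ⟨z, hz⟩
    rw [this]
    exact isPreconnected_empty

/-- compact orbits are stable -/
theorem QFlow.stable [T2Space Y] [LocallyCompactSpace Y] [T2Space N] (h : QFlow φ f) {y0 : Y}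
    (hc : IsCompact (f ⁻¹' {f y0})) {O : Set Y} (hO : IsOpen O) (hsub : f ⁻¹' {f y0} ⊆ O) :
    ∃ L : Set Y, IsCompact L ∧ L ⊆ O ∧ ∀ᶠ n in 𝓝 (f y0), f ⁻¹' {n} ⊆ L := by
  obtain ⟨L, hL, h1, h2⟩ := exists_compact_between hc hO hsub
  refine ⟨L, hL, h2, ?_⟩
  have hfr : IsCompact (frontier (interior L)) := by
    apply hL.of_isClosed_subset isClosed_frontier
    exact (frontier_subset_closure.trans (closure_mono interior_subset)).trans
      hL.isClosed.closure_subset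
  have hcl : IsClosed (f '' frontier (interior L)) := (hfr.image h.fcont).isClosed
  have hnot : f y0 ∉ f '' frontier (interior L) := by
    rintro ⟨z, hz, hzf⟩
    have : z ∈ interior L := h1 hzf
    have hfe := (isOpen_interior (s := L)).frontier_eq
    rw [hfe] at hz
    exact hz.2 this
  have e1 : ∀ᶠ n in 𝓝 (f y0), n ∉ f '' frontier (interior L) := hcl.isOpen_compl.mem_nhds hnot
  have e2 : ∀ᶠ n in 𝓝 (f y0), n ∈ f '' interior L :=
    (h.fopen _ isOpen_interior).mem_nhds ⟨y0, h1 rfl, rfl⟩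
  filter_upwards [e1, e2] with n hn1 hn2
  obtain ⟨z, hz, rfl⟩ := hn2
  by_contra hcon
  obtain ⟨w, hw, hwL⟩ := not_subset.1 hcon
  have hfe := (isOpen_interior (s := L)).frontier_eq
  have hcov : f ⁻¹' {f z} ⊆ interior L ∪ (closure (interior L))ᶜ := by
    intro v hv
    by_contra hv'
    simp only [mem_union, mem_compl_iff, not_or, not_not] at hv'
    exact hn1 ⟨v, by rw [hfe]; exact ⟨hv'.2, hv'.1⟩, hv⟩
  obtain ⟨v, -, hv1, hv2⟩ := h.conn (f z) _ _ isOpen_interior isClosed_closure.isOpen_compl hcov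
    ⟨z, rfl, hz⟩ ⟨w, hw, fun hw' => hwL (by
      have : closure (interior L) ⊆ L := (closure_mono interior_subset).trans
        hL.isClosed.closure_subset
      exact this hw')⟩
  exact hv2 (subset_closure hv1)

theorem QFlow.compact_nhds [T2Space Y] [LocallyCompactSpace Y] [T2Space N] (h : QFlow φ f) {y0 : Y}
    (hc : IsCompact (f ⁻¹' {f y0})) : ∀ᶠ n in 𝓝 (f y0), IsCompact (f ⁻¹' {n}) := by
  obtain ⟨L, hL, -, h2⟩ := h.stable hc isOpen_univ (subset_univ _)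
  filter_upwards [h2] with n hn
  exact hL.of_isClosed_subset (isClosed_singleton.preimage h.fcont) hn

theorem QFlow.periodic (h : QFlow φ f) {y : Y} (hc : IsCompact (f ⁻¹' {f y}))
    (hne : ∃ t, φ t y ≠ y) : ∃ T > 0, φ T y = y := by
  have hmem : ∀ k : ℕ, φ k y ∈ f ⁻¹' {f y} := fun k => h.f_flow _ _
  obtain ⟨z, hz, hcl⟩ := hc (f := map (fun k : ℕ => φ k y) atTop)
    (by rw [Filter.le_principal_iff]; exact Filter.mem_map.2 (Filter.Eventually.of_forall hmem))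
  obtain ⟨τ, hτ⟩ := (h.fibre y z).1 (Eq.symm hz)
  obtain ⟨t0, ht0⟩ := hne
  have hzne : ∃ t, φ t z ≠ z := by
    refine ⟨t0, fun hh => ht0 ?_⟩
    have e : y = φ (-τ) z := by rw [← hτ, ← h.add, neg_add_cancel, h.zero]
    rw [e, ← h.add, add_comm, h.add, hh]
  obtain ⟨s, U, -, -, -, -, hs, hW⟩ := h.box z hzne
  obtain ⟨W, hWn, hW⟩ := hW (1 / 2) (by norm_num)
  have hfreq : ∃ᶠ k in atTop, φ (k : ℕ) y ∈ W := MapClusterPt.frequently hcl hWn
  obtain ⟨k, -, hk⟩ := (Filter.frequently_atTop.1 hfreq) 0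
  obtain ⟨k', hkk', hk'⟩ := (Filter.frequently_atTop.1 hfreq) (k + 1)
  obtain ⟨-, t, ht, e1⟩ := hW _ hk
  obtain ⟨-, t', ht', e2⟩ := hW _ hk'
  have hfz : f z = f y := hz
  rw [h.f_flow, ← hfz, hs] at e1 e2
  have hcast : (k : ℝ) + 1 ≤ k' := by exact_mod_cast hkk'
  refine ⟨(k' : ℝ) - k - (t' - t), ?_, ?_⟩
  · rw [abs_lt] at ht ht'
    linarith [ht.1, ht.2, ht'.1, ht'.2]
  · have e3 : y = φ (-k) (φ t z) := by rw [← e1, ← h.add, neg_add_cancel, h.zero]
    have e4 : φ ((k' : ℝ) - k - (t' - t)) y = φ (-(t' - t)) (φ (-k) (φ k' y)) := by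
      rw [← h.add, ← h.add]; congr 1; ring
    rw [e4, e2, ← h.add, ← h.add]
    conv_rhs => rw [e3, ← h.add]
    congr 1
    ring

theorem QFlow.local_period (h : QFlow φ f) {y0 : Y} (hne : ∃ t, φ t y0 ≠ y0) {T0 : ℝ}
    (hT : φ T0 y0 = y0) {ε : ℝ} (hε : 0 < ε) :
    ∀ᶠ y in 𝓝 y0, ∃ T, |T - T0| < ε ∧ φ T y = y := by
  obtain ⟨s, U, -, -, -, -, hs, hW⟩ := h.box y0 hne
  obtain ⟨W, hWn, hW⟩ := hW (ε / 2) (by linarith)
  have hc : Tendsto (φ T0) (𝓝 y0) (𝓝 y0) := by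
    have := (h.time_cont T0).tendsto y0
    rwa [hT] at this
  filter_upwards [hWn, hc hWn] with y hy hy'
  obtain ⟨-, t, ht, e1⟩ := hW _ hy
  obtain ⟨-, t', ht', e2⟩ := hW _ hy'
  rw [h.f_flow] at e2
  refine ⟨T0 - (t' - t), ?_, ?_⟩
  · rw [abs_lt] at ht ht' ⊢
    constructor <;> linarith [ht.1, ht.2, ht'.1, ht'.2]
  · have e3 : s (f y) = φ (-t) y := by
      conv_rhs => rw [e1]
      rw [← h.add, neg_add_cancel, h.zero]
    have e4 : φ (T0 - (t' - t)) y = φ (-(t' - t)) (φ T0 y) := by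
      rw [← h.add]; congr 1; ring
    rw [e4, e2, e3, ← h.add, ← h.add]
    have : -(t' - t) + t' + -t = 0 := by ring
    rw [this, h.zero]

/-- continuity of the time difference between two sections over a set of line orbits -/
theorem QFlow.time_diff (h : QFlow φ f) {y0 x1 : Y} {t0 : ℝ} (hx : x1 = φ t0 y0)
    (hfree : ∃ t, φ t x1 ≠ x1) {s' : Y → Y} {A : Set Y}
    (hs : Tendsto s' (𝓝[A] y0) (𝓝 x1)) (hsf : ∀ y ∈ A, f (s' y) = f y) {ε : ℝ} (hε : 0 < ε) :
    ∀ᶠ y in 𝓝[A] y0, ∃ t, |t - t0| < ε ∧ s' y = φ t y := by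
  obtain ⟨s, U, -, -, -, -, -, hW⟩ := h.box x1 hfree
  obtain ⟨W, hWn, hW⟩ := hW (ε / 2) (by linarith)
  have hc : Tendsto (φ t0) (𝓝[A] y0) (𝓝 x1) := by
    rw [hx]
    exact ((h.time_cont t0).tendsto y0).mono_left nhdsWithin_le_nhds
  filter_upwards [hc hWn, hs hWn, self_mem_nhdsWithin] with y hy hy' hyA
  obtain ⟨-, t, ht, e1⟩ := hW _ hy
  obtain ⟨-, t', ht', e2⟩ := hW _ hy'
  rw [h.f_flow] at e1
  rw [hsf y hyA] at e2
  refine ⟨t' - t + t0, ?_, ?_⟩
  · rw [abs_lt] at ht ht' ⊢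
    constructor <;> linarith [ht.1, ht.2, ht'.1, ht'.2]
  · have e3 : s (f y) = φ (-t) (φ t0 y) := by
      conv_rhs => rw [e1]
      rw [← h.add, neg_add_cancel, h.zero]
    rw [e2, e3, ← h.add, ← h.add]
    congr 1 <;> ring

end Pool.Agent.H289R3.FQ
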