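import Pool.Agent.H289R3.FQ.Flow

set_option autoImplicit false
open Set Topology Filter

namespace Pool.Agent.H289R3.FQ

variable {Y N : Type*} [TopologicalSpace Y] [TopologicalSpace N] {φ : ℝ → Y → Y} {f : Y → N}

/-- Over a compact set of free orbits there is a continuous section. -/
theorem QFlow.exists_section [Nonempty Y] [T2Space N] [NormalSpace N] (h : QFlow φ f)
    {K : Set N} (hK : IsCompact K) (hr : K ⊆ range f)
    (hfree : ∀ y, f y ∈ K → ∀ t, φ t y = y → t = 0) :
    ∃ σ : N → Y, ContinuousOn σ K ∧ ∀ m ∈ K, f (σ m) = m := by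
  classical
  choose! p hp using fun m (hm : m ∈ K) => hr hm
  have hbox : ∀ m ∈ K, ∃ (s : N → Y) (U : Set N), IsOpen U ∧ m ∈ U ∧
      ContinuousOn s U ∧ (∀ m ∈ U, f (s m) = m) := by
    intro m hm
    obtain ⟨s, U, h1, h2, h3, h4, -, -⟩ := h.box (p m) ⟨1, fun hh => by
      have := hfree (p m) (by rw [hp m hm]; exact hm) 1 hh
      norm_num at this⟩
    rw [hp m hm] at h2
    exact ⟨s, U, h1, h2, h3, h4⟩
  choose! s U hUo hmU hsc hsf using hbox
  obtain ⟨t, ht⟩ := hK.elim_nhds_subcover' (fun m _ => U m) (fun m hm => (hUo m hm).mem_nhds (hmU m hm))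
  let V : t → Set N := fun i => U i.1
  have hVo : ∀ i, IsOpen (V i) := fun i => hUo _ i.1.2
  have hcov : K ⊆ ⋃ i, V i := by
    intro m hm
    obtain ⟨i, hi⟩ := mem_iUnion.1 (ht hm)
    obtain ⟨hi1, hi2⟩ := mem_iUnion.1 hi
    exact mem_iUnion.2 ⟨⟨i, hi1⟩, hi2⟩
  obtain ⟨ρ, hρ⟩ := PartitionOfUnity.exists_isSubordinate_of_locallyFinite hK.isClosed V hVo
    (locallyFinite_of_finite V) hcov
  have hsum : ∀ m ∈ K, ∑ i, ρ i m = 1 := by
    intro m hm
    rw [← finsum_eq_sum_of_fintype]
    exact ρ.sum_eq_one hm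
  have hρ0 : ∀ i m, m ∉ V i → ρ i m = 0 := by
    intro i m hm
    by_contra hne
    exact hm (hρ i (subset_tsupport _ hne))
  have hex : ∀ (i : t) (y : Y), f y ∈ V i → ∃ r, s i.1 (f y) = φ r y := by
    intro i y hy
    obtain ⟨r, hr⟩ := (h.fibre y (s i.1 (f y))).1 (hsf _ i.1.2 _ hy).symm
    exact ⟨r, hr.symm⟩
  let tt : t → Y → ℝ := fun i y => if hh : ∃ r, s i.1 (f y) = φ r y then hh.choose else 0
  have htt : ∀ (i : t) (y : Y), f y ∈ V i → s i.1 (f y) = φ (tt i y) y := by
    intro i y hy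
    have hh := hex i y hy
    simp only [tt, hh, dif_pos]
    exact hh.choose_spec
  have huniq : ∀ y, f y ∈ K → ∀ a b, φ a y = φ b y → a = b := by
    intro y hy a b hab
    have : φ (a - b) (φ b y) = φ b y := by
      rw [← h.add, sub_add_cancel, hab]
    have := hfree (φ b y) (by rw [h.f_flow]; exact hy) _ this
    linarith
  let τ : Y → ℝ := fun y => ∑ i, ρ i (f y) * tt i y
  have hτ : ∀ y, f y ∈ K → ∀ r, τ (φ r y) = τ y - r := by
    intro y hy r
    have e : ∀ i, ρ i (f (φ r y)) * tt i (φ r y) = ρ i (f y) * tt i y - ρ i (f y) * r := by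
      intro i
      rw [h.f_flow]
      by_cases hi : f y ∈ V i
      · have e1 := htt i y hi
        have e2 := htt i (φ r y) (by rw [h.f_flow]; exact hi)
        rw [h.f_flow, e1, ← h.add] at e2
        have := huniq y hy _ _ e2
        have : tt i (φ r y) = tt i y - r := by linarith
        rw [this]; ring
      · rw [hρ0 i _ hi]; ring
    simp only [τ]
    rw [Finset.sum_congr rfl (fun i _ => e i), Finset.sum_sub_distrib, ← Finset.sum_mul,
      hsum _ hy, one_mul]
  let SS : Y → Y := fun y => φ (τ y) y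
  have hS : ∀ y, f y ∈ K → ∀ y', f y' = f y → SS y' = SS y := by
    intro y hy y' hy'
    obtain ⟨r, rfl⟩ := (h.fibre y y').1 hy'.symm
    simp only [SS]
    rw [hτ y hy, ← h.add, sub_add_cancel]
  have hτc : ContinuousOn τ (f ⁻¹' K) := by
    apply continuousOn_finsetSum
    intro i _ y0 hy0
    by_cases hi : f y0 ∈ tsupport (ρ i)
    · have hiV : f y0 ∈ V i := hρ i hi
      apply ContinuousWithinAt.mul
      · exact ((ρ i).continuous.comp h.fcont).continuousWithinAt
      · have hA : 𝓝[f ⁻¹' K] y0 = 𝓝[f ⁻¹' (K ∩ V i)] y0 := by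
          rw [preimage_inter]
          exact (nhdsWithin_inter_of_mem' (mem_nhdsWithin_of_mem_nhds
            (((hVo i).preimage h.fcont).mem_nhds hiV))).symm
        rw [ContinuousWithinAt, hA, Metric.tendsto_nhds]
        intro ε hε
        have := h.time_diff (y0 := y0) (x1 := s i.1 (f y0)) (t0 := tt i y0) (htt i y0 hiV)
          ⟨1, fun hh => by
            have := hfree _ (by rw [hsf _ i.1.2 _ hiV]; exact hy0) 1 hh
            norm_num at this⟩ (s' := fun y => s i.1 (f y)) (A := f ⁻¹' (K ∩ V i)) (by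
            have h1 : ContinuousOn (fun y => s i.1 (f y)) (f ⁻¹' (V i)) :=
              (hsc _ i.1.2).comp h.fcont.continuousOn (fun y hy => hy)
            exact ((h1 y0 hiV).mono (fun y hy => hy.2)).tendsto)
          (fun y hy => hsf _ i.1.2 _ hy.2) hε
        filter_upwards [this, self_mem_nhdsWithin] with y hy hyA
        obtain ⟨r, hr1, hr2⟩ := hy
        rw [htt i y hyA.2] at hr2
        have := huniq y hyA.1 _ _ hr2
        rw [this, Real.dist_eq]
        exact hr1
    · have hz : ∀ᶠ y in 𝓝[f ⁻¹' K] y0, ρ i (f y) * tt i y = 0 := by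
        apply mem_nhdsWithin_of_mem_nhds
        have : (f ⁻¹' (tsupport (ρ i))ᶜ) ∈ 𝓝 y0 :=
          ((isClosed_tsupport _).isOpen_compl.preimage h.fcont).mem_nhds hi
        filter_upwards [this] with y hy
        have : ρ i (f y) = 0 := by
          by_contra hne
          exact hy (subset_tsupport _ hne)
        rw [this, zero_mul]
      have h0 : ρ i (f y0) * tt i y0 = 0 := by
        have : ρ i (f y0) = 0 := by
          by_contra hne
          exact hi (subset_tsupport _ hne)
        rw [this, zero_mul]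
      rw [ContinuousWithinAt, h0]
      exact tendsto_const_nhds.congr' (hz.mono fun _ hy => hy.symm)
  have hSc : ContinuousOn SS (f ⁻¹' K) := h.cont.comp_continuousOn (hτc.prodMk continuousOn_id)
  refine ⟨fun m => SS (p m), ?_, fun m hm => by simp only [SS]; rw [h.f_flow, hp m hm]⟩
  intro m0 hm0
  obtain ⟨i, hi⟩ := mem_iUnion.1 (hcov hm0)
  have hA : 𝓝[K] m0 = 𝓝[K ∩ V i] m0 :=
    (nhdsWithin_inter_of_mem' (mem_nhdsWithin_of_mem_nhds ((hVo i).mem_nhds hi))).symm
  have e : ∀ m ∈ K ∩ V i, SS (p m) = SS (s i.1 m) := by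
    intro m hm
    have hsm := hsf _ i.1.2 _ hm.2
    refine (hS (s i.1 m) (by rw [hsm]; exact hm.1) (p m) ?_)
    rw [hp m hm.1, hsm]
  have hc : ContinuousWithinAt (fun m => SS (s i.1 m)) (K ∩ V i) m0 := by
    have h1 : ContinuousOn (fun m => SS (s i.1 m)) (K ∩ V i) := by
      apply hSc.comp ((hsc _ i.1.2).mono inter_subset_right)
      intro m hm
      change f (s i.1 m) ∈ K
      rw [hsf _ i.1.2 _ hm.2]
      exact hm.1
    exact h1 m0 ⟨hm0, hi⟩
  rw [ContinuousWithinAt, hA]
  rw [e m0 ⟨hm0, hi⟩]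
  exact hc.tendsto.congr' (by
    filter_upwards [self_mem_nhdsWithin] with m hm
    exact (e m hm).symm)

end Pool.Agent.H289R3.FQ
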