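import Pool.Agent.H289R3.FQ.BData
import Pool.Agent.H289R3.FQ.Section
import Pool.Agent.H672R3.FQ.FlowBox
import Pool.Agent.H853R3.FQT2

set_option autoImplicit false
open Set Topology Filter
open scoped ContDiff

namespace Pool.Agent.H289R3.FQ

theorem qflow_of {V F : Type} [NormedAddCommGroup V] [NormedSpace ℝ V] [FiniteDimensional ℝ V]
    [NormedAddCommGroup F] [NormedSpace ℝ F] [FiniteDimensional ℝ F]
    (hdim : Module.finrank ℝ V = Module.finrank ℝ F + 1) {X : Set V} (hX : IsOpen X) {M : Set F}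
    (hM : IsOpen M) {Φ : ℝ → V → V} (hΦ : IsFlow X Φ) {π : V → F}
    (hπ : IsQuotientOfFlow X Φ M π) :
    QFlow (fun t (x : X) => (⟨Φ t x, hΦ.mapsTo t x.2⟩ : X)) (fun x : X => π x) where
  cont := by
    apply Continuous.subtype_mk
    exact hΦ.smooth.continuousOn.comp_continuous
      (continuous_fst.prodMk (continuous_subtype_val.comp continuous_snd))
      (fun p => ⟨mem_univ _, p.2.2⟩)
  zero x := Subtype.ext (hΦ.zero x.1 x.2)
  add s t x := Subtype.ext (hΦ.add s t x.1 x.2)
  fcont := by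
    rw [continuous_def]
    intro U hU
    have h1 := (hπ.quotient (U ∩ M) inter_subset_right).1 (hU.inter hM)
    have h2 : (fun x : X => π x) ⁻¹' U = Subtype.val ⁻¹' (X ∩ π ⁻¹' (U ∩ M)) := by
      ext x
      have hx : π x.1 ∈ M := by rw [← hπ.image]; exact ⟨x.1, x.2, rfl⟩
      simp only [mem_preimage, mem_inter_iff]
      exact ⟨fun h => ⟨x.2, h, hx⟩, fun h => h.2.1⟩
    rw [h2]
    exact h1.preimage continuous_subtype_val
  fopen := by
    intro O hO
    have hsub : (fun x : X => π x) '' O ⊆ M := by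
      rintro _ ⟨x, -, rfl⟩
      rw [← hπ.image]
      exact ⟨x.1, x.2, rfl⟩
    rw [hπ.quotient _ hsub]
    have hopen : IsOpen {x : X | ∃ t, (⟨Φ t x, hΦ.mapsTo t x.2⟩ : X) ∈ O} := by
      have : {x : X | ∃ t, (⟨Φ t x, hΦ.mapsTo t x.2⟩ : X) ∈ O} =
          ⋃ t, (fun x : X => (⟨Φ t x, hΦ.mapsTo t x.2⟩ : X)) ⁻¹' O := by
        ext x
        simp
      rw [this]
      apply isOpen_iUnion
      intro t
      apply hO.preimage
      apply Continuous.subtype_mk
      exact hΦ.smooth.continuousOn.comp_continuous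
        (continuous_const.prodMk continuous_subtype_val) (fun p => ⟨mem_univ _, p.2⟩)
    have himg : X ∩ π ⁻¹' ((fun x : X => π x) '' O) =
        Subtype.val '' {x : X | ∃ t, (⟨Φ t x, hΦ.mapsTo t x.2⟩ : X) ∈ O} := by
      ext x
      constructor
      · rintro ⟨hx, y, hy, hyx⟩
        obtain ⟨t, ht⟩ := (hπ.fibre x hx y.1 y.2).1 hyx.symm
        refine ⟨⟨x, hx⟩, ⟨t, ?_⟩, rfl⟩
        have : (⟨Φ t x, hΦ.mapsTo t hx⟩ : X) = y := Subtype.ext ht
        change (⟨Φ t x, hΦ.mapsTo t hx⟩ : X) ∈ O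
        rw [this]
        exact hy
      · rintro ⟨x, ⟨t, ht⟩, rfl⟩
        refine ⟨x.2, _, ht, ?_⟩
        exact ((hπ.fibre x.1 x.2 (Φ t x) (hΦ.mapsTo t x.2)).2 ⟨t, rfl⟩).symm
    rw [himg]
    exact hX.isOpenMap_subtype_val _ hopen
  fibre := by
    intro x y
    rw [show ((fun x : X => π x) x = (fun x : X => π x) y) = (π x.1 = π y.1) from rfl,
      hπ.fibre x.1 x.2 y.1 y.2]
    constructor
    · rintro ⟨t, ht⟩
      exact ⟨t, Subtype.ext ht⟩
    · rintro ⟨t, rfl⟩
      exact ⟨t, rfl⟩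
  box := by
    classical
    intro x hx
    have hx' : ∃ t, Φ t x.1 ≠ x.1 := by
      obtain ⟨t, ht⟩ := hx
      exact ⟨t, fun hh => ht (Subtype.ext hh)⟩
    obtain ⟨s, U, hU, hxU, hs, hsX, hsx, hW⟩ := H672R3.FQ.taskFlowBox V F hdim X Φ π x.1 hX hΦ
      (fun y hy t => ((hπ.fibre y hy (Φ t y) (hΦ.mapsTo t hy)).2 ⟨t, rfl⟩).symm) x.2 hx'
      (hπ.smooth x.1 x.2 hx') (hπ.submersion x.1 x.2 hx')
    let s' : F → X := fun m => if hm : s m ∈ X then ⟨s m, hm⟩ else x
    have hs' : ∀ m ∈ U, (s' m).1 = s m := by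
      intro m hm
      have := (hsX m hm).1
      simp only [s', this, dif_pos]
    refine ⟨s', U, hU, hxU, ?_, ?_, ?_, ?_⟩
    · refine (Topology.IsInducing.continuousOn_iff
        (⟨rfl⟩ : Topology.IsInducing (Subtype.val : X → V))).2 ?_
      exact hs.congr (fun m hm => hs' m hm)
    · intro m hm
      change π (s' m).1 = m
      rw [hs' m hm, (hsX m hm).2]
    · apply Subtype.ext
      rw [hs' _ hxU, hsx]
    · intro ε hε
      obtain ⟨W, hWn, hW⟩ := hW ε hε
      refine ⟨Subtype.val ⁻¹' W, continuous_subtype_val.continuousAt hWn, ?_⟩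
      intro w hw
      obtain ⟨h1, t, ht, h2⟩ := hW w.1 hw
      refine ⟨h1, t, ht, ?_⟩
      apply Subtype.ext
      change w.1 = Φ t (s' (π w.1)).1
      rw [hs' _ h1]
      exact h2

/-- the angle of a complex number, in `ℝ/ℤ` -/
noncomputable def ang (z : ℂ) : T1 :=
  (AddCircle.homeomorphCircle (T := 1) one_ne_zero).symm (Circle.exp (Complex.arg z))

theorem ang_cont {z : ℂ} (hz : z ≠ 0) : ContinuousAt ang z := by
  apply (AddCircle.homeomorphCircle (T := 1) one_ne_zero).symm.continuous.continuousAt.comp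
  refine (Topology.IsInducing.continuousAt_iff
    (⟨rfl⟩ : Topology.IsInducing (fun c : Circle => (c : ℂ)))).2 ?_
  have h1 : ContinuousAt (fun w : ℂ => w / ‖w‖) z := by
    apply ContinuousAt.div continuousAt_id
    · exact (Complex.continuous_ofReal.comp continuous_norm).continuousAt
    · simpa using hz
  apply h1.congr
  filter_upwards [isOpen_ne.mem_nhds hz] with w hw
  have hw' : (‖w‖ : ℂ) ≠ 0 := by simpa using hw
  change w / ‖w‖ = (Circle.exp (Complex.arg w) : ℂ)
  rw [Circle.coe_exp, div_eq_iff hw', mul_comm]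
  exact (Complex.norm_mul_exp_arg_mul_I w).symm

/-- the standard torus in `(ℂ ∖ 0)⁵` -/
noncomputable def tor (y : Fin 5 → ℝ) (j : Fin 5) : ℂ := (Circle.exp (2 * Real.pi * y j) : ℂ)

theorem tor_cont : Continuous tor := by
  unfold tor
  fun_prop

theorem ang_tor (y : Fin 5 → ℝ) (j : Fin 5) : ang (tor y j) = ((y j : ℝ) : T1) := by
  unfold ang tor
  rw [Circle.exp_arg, Homeomorph.symm_apply_eq, AddCircle.homeomorphCircle_apply,
    AddCircle.toCircle_apply_mk]
  simp

theorem tor_int (y : Fin 5 → ℝ) (k : Fin 5 → ℤ) : tor (fun j => y j + k j) = tor y := by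
  funext j
  unfold tor
  rw [mul_add, Circle.exp_add]
  have : Circle.exp (2 * Real.pi * (k j : ℝ)) = 1 := by
    rw [mul_comm]
    exact Circle.exp_int_mul_two_pi (k j)
  rw [this, mul_one]

theorem tor_ee (y : Fin 5 → ℝ) (j : Fin 5) : tor (y + ee j) = tor y := by
  have : y + ee j = fun i => y i + ((Pi.single j 1 : Fin 5 → ℤ) i : ℝ) := by
    funext i
    simp only [Pi.add_apply, ee]
    by_cases h : i = j
    · subst h; simp
    · simp [h]
  rw [this, tor_int]

theorem isOpen_puncturedFive : IsOpen PuncturedFive := by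
  have : PuncturedFive = ⋂ j, {z : Fin 5 → ℂ | z j ≠ 0} := by
    ext z
    simp [PuncturedFive]
  rw [this]
  exact isOpen_iInter_of_finite fun j => isOpen_ne.preimage (continuous_apply j)

theorem not_realized (hTorus : TaskTorus) : ¬ RealizedAsQuotient 10 PuncturedFive := by
  classical
  rintro ⟨S, Φ, π, hS, hSd, hΦ, hπ⟩
  have hX : IsOpen (Total 10 S) := hS.isOpen_compl.preimage continuous_fst
  have hdim : Module.finrank ℝ (ℂ × EuclideanSpace ℝ (Fin (10 - 1))) =
      Module.finrank ℝ (Fin 5 → ℂ) + 1 := by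
    rw [Module.finrank_prod, finrank_euclideanSpace_fin, Complex.finrank_real_complex,
      Module.finrank_pi_fintype]
    simp [Complex.finrank_real_complex]
  have h := qflow_of hdim hX isOpen_puncturedFive hΦ hπ
  set f : Total 10 S → (Fin 5 → ℂ) := fun x => π x with hf
  have hπc : ContinuousOn π (Total 10 S) := continuousOn_iff_continuous_domRestrict.2 h.fcont
  have hM : ∀ x ∈ Total 10 S, ∀ j, π x j ≠ 0 := by
    intro x hx
    have : π x ∈ PuncturedFive := by rw [← hπ.image]; exact ⟨x, hx, rfl⟩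
    exact this
  have htorM : ∀ y, tor y ∈ PuncturedFive := fun y j => Circle.coe_ne_zero _
  have hsurj : ∀ y, ∃ x, f x = tor y := by
    intro y
    have := htorM y
    rw [← hπ.image] at this
    obtain ⟨x, hx, hxy⟩ := this
    exact ⟨⟨x, hx⟩, hxy⟩
  have hp : ∀ j, ContinuousOn (fun q => ang (π q j)) (Total 10 S) := by
    intro j x hx
    have h1 : ContinuousWithinAt (fun q => π q j) (Total 10 S) x :=
      (continuous_apply j).continuousAt.comp_continuousWithinAt (hπc x hx)
    exact ContinuousAt.comp_continuousWithinAt (g := ang) (f := fun q => π q j)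
      (ang_cont (hM x hx j)) h1
  have : LocallyCompactSpace (Total 10 S) := hX.locallyCompactSpace
  have : Nonempty (Total 10 S) := ⟨(hsurj 0).choose⟩
  -- the torus and its bad part
  have hTc : IsCompact (range tor) := by
    have : range tor = tor '' Icc 0 1 := by
      apply Subset.antisymm
      · rintro _ ⟨y, rfl⟩
        refine ⟨fun j => Int.fract (y j), ⟨fun j => Int.fract_nonneg _, fun j => (Int.fract_lt_one _).le⟩, ?_⟩
        rw [← tor_int (fun j => Int.fract (y j)) (fun j => ⌊y j⌋)]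
        congr 1
        funext j
        exact Int.fract_add_floor (y j)
      · rintro _ ⟨y, -, rfl⟩
        exact ⟨y, rfl⟩
    rw [this]
    exact isCompact_Icc.image tor_cont
  let K : Set (Fin 5 → ℂ) := {m | m ∈ range tor ∧ ¬ IsCompact (f ⁻¹' {m})}
  have hKc : IsCompact K := by
    apply hTc.of_isClosed_subset _ (fun m hm => hm.1)
    rw [← isOpen_compl_iff, isOpen_iff_mem_nhds]
    intro m hm
    by_cases hmT : m ∈ range tor
    · have hmc : IsCompact (f ⁻¹' {m}) := by
        by_contra hcon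
        exact hm ⟨hmT, hcon⟩
      obtain ⟨y, rfl⟩ := hmT
      obtain ⟨x, hx⟩ := hsurj y
      rw [← hx] at hmc ⊢
      filter_upwards [h.compact_nhds hmc] with n hn hn'
      exact hn'.2 hn
    · filter_upwards [hTc.isClosed.isOpen_compl.mem_nhds hmT] with n hn hn'
      exact hn hn'.1
  obtain ⟨σ, hσc, hσ⟩ := h.exists_section hKc (by
    rintro m ⟨⟨y, rfl⟩, -⟩
    exact hsurj y) (by
    intro x hx t ht
    by_contra hne
    exact hx.2 (h.compact_of_periodic hne ht))
  -- a bound on the section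
  have hbound : ∀ L : Set (Total 10 S), IsCompact L → ∃ R : ℝ, ∀ x ∈ L, ‖x.1.1‖ < R := by
    intro L hL
    obtain ⟨B, hB⟩ := hL.exists_bound_of_continuousOn (f := fun x : Total 10 S => x.1.1)
      (continuous_fst.comp continuous_subtype_val).continuousOn
    exact ⟨B + 1, fun x hx => (hB x hx).trans_lt (lt_add_one _)⟩
  obtain ⟨R₁, hR₁⟩ := hbound _ (hKc.image_of_continuousOn hσc)
  obtain ⟨Θ₁, hΘ₁c, hΘ₁⟩ := H853R3.FQTheta.taskTheta (10 - 1) S hS hSd R₁
    (fun q => ang (π q 0)) (fun q => ang (π q 1)) (hp 0) (hp 1)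
  -- the bad set in the universal cover of the torus
  let C : Set (Fin 5 → ℝ) := {y | tor y ∈ K}
  have hCint : ∀ (y : Fin 5 → ℝ) (k : Fin 5 → ℤ), y ∈ C ↔ (fun j => y j + k j) ∈ C := by
    intro y k
    simp only [C, mem_ofPred_eq, tor_int]
  have hangσ : ∀ y ∈ C, ∀ j, ang (π (σ (tor y)).1 j) = ((y j : ℝ) : T1) := by
    intro y hy j
    have : π (σ (tor y)).1 = tor y := hσ _ hy
    rw [this, ang_tor]
  have hσR : ∀ y ∈ C, ‖(σ (tor y)).1.1‖ < R₁ := fun y hy => hR₁ _ ⟨_, hy, rfl⟩
  refine hTorus C (hKc.isClosed.preimage tor_cont) ?_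
    (fun y => Θ₁ (σ (tor y)).1 (y 0) (y 1)) ?_ ?_ ?_
  · intro y j
    simp only [C, mem_ofPred_eq, tor_ee]
  · have hmaps : ContinuousOn (fun y : Fin 5 → ℝ =>
        (((σ (tor y)).1, (y 0, y 1)) : (ℂ × EuclideanSpace ℝ (Fin (10 - 1))) × ℝ × ℝ)) C := by
      apply ContinuousOn.prodMk
      · exact continuous_subtype_val.comp_continuousOn
          (hσc.comp tor_cont.continuousOn (fun y hy => hy))
      · exact Continuous.continuousOn (by fun_prop)
    exact hΘ₁c.comp hmaps (fun y hy => ⟨hσR y hy, (σ (tor y)).2, hangσ y hy 0, hangσ y hy 1⟩)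
  · intro y hy j
    simp only [tor_ee]
    obtain ⟨h1, h2⟩ := hΘ₁ (σ (tor y)).1 (y 0) (y 1) (hσR y hy) (σ (tor y)).2 (hangσ y hy 0)
      (hangσ y hy 1)
    by_cases hj0 : j = 0
    · subst hj0
      simp only [Pi.add_apply, ee, Pi.single_eq_same]
      rw [if_neg (by decide), add_zero]
      have : (Pi.single 0 1 : Fin 5 → ℝ) 1 = 0 := by simp
      rw [this, add_zero]
      exact h1
    · by_cases hj1 : j = 1
      · subst hj1
        simp only [Pi.add_apply, ee, Pi.single_eq_same, if_true]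
        have : (Pi.single 1 1 : Fin 5 → ℝ) 0 = 0 := by simp
        rw [this, add_zero]
        exact h2
      · simp only [Pi.add_apply, ee]
        have e0 : (Pi.single j 1 : Fin 5 → ℝ) 0 = 0 := by simp [Ne.symm hj0]
        have e1 : (Pi.single j 1 : Fin 5 → ℝ) 1 = 0 := by simp [Ne.symm hj1]
        rw [e0, e1, if_neg hj1]
        simp
  · intro δ hδ
    let A : Set (Fin 5 → ℝ) := {y | ∀ c ∈ C, δ ≤ dist y c}
    have hAcl : IsClosed A := by
      have : A = ⋂ c ∈ C, {y | δ ≤ dist y c} := by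
        ext y
        simp [A]
      rw [this]
      exact isClosed_biInter fun c _ => isClosed_le continuous_const (by fun_prop)
    have hAc : ∀ y ∈ A, IsCompact (f ⁻¹' {tor y}) := by
      intro y hy
      by_contra hcon
      have hyC : y ∈ C := ⟨⟨y, rfl⟩, hcon⟩
      have := hy y hyC
      rw [dist_self] at this
      linarith
    have hTA : IsCompact (tor '' A) := by
      have : tor '' A = tor '' (A ∩ Icc 0 1) := by
        apply Subset.antisymm
        · rintro _ ⟨y, hy, rfl⟩
          refine ⟨fun j => Int.fract (y j), ⟨?_, fun j => Int.fract_nonneg _,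
            fun j => (Int.fract_lt_one _).le⟩, ?_⟩
          · intro c hc
            have h1 := hy (fun j => c j + (⌊y j⌋ : ℤ)) ((hCint c _).1 hc)
            have h2 : dist (fun j => Int.fract (y j)) c =
                dist y (fun j => c j + (⌊y j⌋ : ℤ)) := by
              rw [dist_eq_norm, dist_eq_norm]
              congr 1
              funext j
              simp only [Pi.sub_apply]
              have := Int.fract_add_floor (y j)
              linarith
            rw [h2]
            exact h1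
          · rw [← tor_int (fun j => Int.fract (y j)) (fun j => ⌊y j⌋)]
            congr 1
            funext j
            exact Int.fract_add_floor (y j)
        · exact image_mono inter_subset_left
      rw [this]
      exact (isCompact_Icc.inter_left hAcl).image tor_cont
    obtain ⟨L, hL, hLA⟩ : ∃ L : Set (Total 10 S), IsCompact L ∧ ∀ m ∈ tor '' A, f ⁻¹' {m} ⊆ L := by
      refine hTA.induction_on (p := fun s => ∃ L : Set (Total 10 S), IsCompact L ∧
        ∀ m ∈ s, f ⁻¹' {m} ⊆ L) ?_ ?_ ?_ ?_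
      · exact ⟨∅, isCompact_empty, by simp⟩
      · rintro s t hst ⟨L, hL, hL'⟩
        exact ⟨L, hL, fun m hm => hL' m (hst hm)⟩
      · rintro s t ⟨L, hL, hL'⟩ ⟨L2, hL2, hL2'⟩
        refine ⟨L ∪ L2, hL.union hL2, ?_⟩
        rintro m (hm | hm)
        · exact (hL' m hm).trans subset_union_left
        · exact (hL2' m hm).trans subset_union_right
      · rintro _ ⟨y, hy, rfl⟩
        obtain ⟨x, hx⟩ := hsurj y
        have hc := hAc y hy
        rw [← hx] at hc ⊢
        obtain ⟨L, hL, -, hev⟩ := h.stable hc isOpen_univ (subset_univ _)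
        exact ⟨_, mem_nhdsWithin_of_mem_nhds hev, L, hL, fun m hm => hm⟩
    obtain ⟨R₂, hR₂⟩ := hbound L hL
    obtain ⟨Θ₂, hΘ₂c, hΘ₂⟩ := H853R3.FQTheta.taskTheta (10 - 1) S hS hSd R₂
      (fun q => ang (π q 2)) (fun q => ang (π q 4)) (hp 2) (hp 4)
    obtain ⟨Θ₃, hΘ₃c, hΘ₃⟩ := H853R3.FQTheta.taskTheta (10 - 1) S hS hSd R₂
      (fun q => ang (π q 2)) (fun q => ang (π q 3)) (hp 2) (hp 3)
    have hang : ∀ (x : Total 10 S) y, f x = tor y → ∀ j, ang (π x.1 j) = ((y j : ℝ) : T1) := by
      intro x y hxy j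
      have : π x.1 = tor y := hxy
      rw [this, ang_tor]
    refine bdata h tor_cont tor_ee hsurj (O := {x | ‖x.1.1‖ < R₂}) ?_
      (D₁ := fun p => Θ₂ p.1.1 (p.2 2) (p.2 4)) (D₂ := fun p => Θ₃ p.1.1 (p.2 2) (p.2 3))
      ?_ ?_ ?_ ?_ (K := A) ?_
    · exact isOpen_lt (continuous_fst.comp continuous_subtype_val).norm continuous_const
    · have hmaps : Continuous (fun p : Total 10 S × (Fin 5 → ℝ) =>
          ((p.1.1, (p.2 2, p.2 4)) : (ℂ × EuclideanSpace ℝ (Fin (10 - 1))) × ℝ × ℝ)) := by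
        fun_prop
      exact hΘ₂c.comp hmaps.continuousOn
        (fun p hp' => ⟨hp'.1, p.1.2, hang _ _ hp'.2 2, hang _ _ hp'.2 4⟩)
    · have hmaps : Continuous (fun p : Total 10 S × (Fin 5 → ℝ) =>
          ((p.1.1, (p.2 2, p.2 3)) : (ℂ × EuclideanSpace ℝ (Fin (10 - 1))) × ℝ × ℝ)) := by
        fun_prop
      exact hΘ₃c.comp hmaps.continuousOn
        (fun p hp' => ⟨hp'.1, p.1.2, hang _ _ hp'.2 2, hang _ _ hp'.2 3⟩)
    · intro x y hx hxy j
      obtain ⟨h1, h2⟩ := hΘ₂ x.1 (y 2) (y 4) hx x.2 (hang x y hxy 2) (hang x y hxy 4)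
      simp only [Pi.add_apply, ee]
      by_cases hj2 : j = 2
      · subst hj2
        have e4 : (Pi.single 2 1 : Fin 5 → ℝ) 4 = 0 := by simp
        rw [Pi.single_eq_same, e4, add_zero, if_neg (by decide)]
        simpa using h1
      · have e2 : (Pi.single j 1 : Fin 5 → ℝ) 2 = 0 := by simp [Ne.symm hj2]
        rw [e2, add_zero]
        by_cases hj4 : j = 4
        · subst hj4
          rw [Pi.single_eq_same, if_pos rfl]
          exact h2
        · have e4 : (Pi.single j 1 : Fin 5 → ℝ) 4 = 0 := by simp [Ne.symm hj4]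
          rw [e4, add_zero, if_neg hj4]
          simp
    · intro x y hx hxy j
      obtain ⟨h1, h2⟩ := hΘ₃ x.1 (y 2) (y 3) hx x.2 (hang x y hxy 2) (hang x y hxy 3)
      simp only [Pi.add_apply, ee]
      by_cases hj2 : j = 2
      · subst hj2
        have e4 : (Pi.single 2 1 : Fin 5 → ℝ) 3 = 0 := by simp
        rw [Pi.single_eq_same, e4, add_zero, if_neg (by decide)]
        simpa using h1
      · have e2 : (Pi.single j 1 : Fin 5 → ℝ) 2 = 0 := by simp [Ne.symm hj2]
        rw [e2, add_zero]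
        by_cases hj4 : j = 3
        · subst hj4
          rw [Pi.single_eq_same, if_pos rfl]
          exact h2
        · have e4 : (Pi.single j 1 : Fin 5 → ℝ) 3 = 0 := by simp [Ne.symm hj4]
          rw [e4, add_zero, if_neg hj4]
          simp
    · intro y hy
      exact ⟨hAc y hy, fun x hx => hR₂ x (hLA _ ⟨y, hy, rfl⟩ hx)⟩

end Pool.Agent.H289R3.FQ
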