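import Pool.Agent.H289R3.FQ.Defs

set_option autoImplicit false
open Set Topology
open scoped ContDiff

namespace Pool.Agent.H289R3.FQ

/-- the circle `ℝ/ℤ` -/
abbrev T1 := AddCircle (1 : ℝ)

/-- TASK THETA -/
def TaskTheta : Prop :=
  ∀ (k : ℕ) (S : Set ℂ), IsClosed S → IsDiscrete S → ∀ (R : ℝ)
    (p₁ p₂ : ℂ × EuclideanSpace ℝ (Fin k) → T1),
    ContinuousOn p₁ {q | q.1 ∉ S} → ContinuousOn p₂ {q | q.1 ∉ S} →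
    ∃ Θ : ℂ × EuclideanSpace ℝ (Fin k) → ℝ → ℝ → T1,
      ContinuousOn (fun x : (ℂ × EuclideanSpace ℝ (Fin k)) × ℝ × ℝ => Θ x.1 x.2.1 x.2.2)
        {x | ‖x.1.1‖ < R ∧ x.1.1 ∉ S ∧ p₁ x.1 = (x.2.1 : T1) ∧ p₂ x.1 = (x.2.2 : T1)} ∧
      ∀ (q : ℂ × EuclideanSpace ℝ (Fin k)) (u v : ℝ), ‖q.1‖ < R → q.1 ∉ S → p₁ q = (u : T1) → p₂ q = (v : T1) →
        Θ q (u + 1) v = Θ q u v ∧ Θ q u (v + 1) = Θ q u v + (u : T1)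

/-- TASK FLOWBOX -/
def TaskFlowBox : Prop :=
  ∀ (V F : Type) [NormedAddCommGroup V] [NormedSpace ℝ V] [FiniteDimensional ℝ V]
    [NormedAddCommGroup F] [NormedSpace ℝ F] [FiniteDimensional ℝ F],
    Module.finrank ℝ V = Module.finrank ℝ F + 1 →
    ∀ (X : Set V) (Φ : ℝ → V → V) (π : V → F) (x₀ : V), IsOpen X → IsFlow X Φ →
    (∀ x ∈ X, ∀ t, π (Φ t x) = π x) → x₀ ∈ X → (∃ t, Φ t x₀ ≠ x₀) → ContDiffAt ℝ ∞ π x₀ →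
    Function.Surjective (fderiv ℝ π x₀) →
    ∃ (s : F → V) (U : Set F), IsOpen U ∧ π x₀ ∈ U ∧ ContinuousOn s U ∧
      (∀ m ∈ U, s m ∈ X ∧ π (s m) = m) ∧ s (π x₀) = x₀ ∧
      ∀ ε > 0, ∃ W ∈ 𝓝 x₀, ∀ w ∈ W, π w ∈ U ∧ ∃ t, |t| < ε ∧ w = Φ t (s (π w))

/-- the unit vector of direction `j` in `ℝ⁵` -/
noncomputable def ee (j : Fin 5) : Fin 5 → ℝ := Pi.single j 1

/-- TASK TORUS (discrete cup product argument on the five-dimensional torus) -/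
def TaskTorus : Prop :=
  ∀ (C : Set (Fin 5 → ℝ)), IsClosed C → (∀ y j, y ∈ C ↔ y + ee j ∈ C) →
    ∀ (f : (Fin 5 → ℝ) → T1), ContinuousOn f C →
    (∀ y ∈ C, ∀ j, f (y + ee j) = f y + (if j = 1 then ((y 0 : ℝ) : T1) else 0)) →
    (∀ δ > 0, ∃ (B₀ B₁ : Set (Fin 5 → ℝ)) (g₀ g₁ : (Fin 5 → ℝ) → T1) (r : (Fin 5 → ℝ) → ℚ),
      IsOpen B₀ ∧ IsOpen B₁ ∧ Disjoint B₀ B₁ ∧ (∀ y j, y ∈ B₀ ↔ y + ee j ∈ B₀) ∧
      (∀ y j, y ∈ B₁ ↔ y + ee j ∈ B₁) ∧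
      (∀ y, (∀ c ∈ C, δ ≤ dist y c) → y ∈ B₀ ∪ B₁) ∧
      ContinuousOn g₀ B₀ ∧ ContinuousOn g₁ B₁ ∧
      (∀ y ∈ B₀, ∀ j, g₀ (y + ee j) = g₀ y + (if j = 4 then ((y 2 : ℝ) : T1) else 0)) ∧
      (∀ y ∈ B₁, ∀ᶠ y' in 𝓝 y, r y' = r y) ∧ (∀ y ∈ B₁, ∀ j, r (y + ee j) = r y) ∧
      (∀ y ∈ B₁, ∀ j, g₁ (y + ee j) = g₁ y + (if j = 3 then (((r y).den * y 2 : ℝ) : T1)
        else if j = 4 then ((-((r y).num * y 2) : ℝ) : T1) else 0))) →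
    False

/-- TASK STOKES (algebra; used for TORUS) -/
def TaskStokes : Prop :=
  ∀ (G : Type) [AddCommGroup G] [Fintype G] (e : Fin 4 → G) (a b : Fin 4 → G → ℝ) (c : ℝ),
    let A : Fin 4 → Fin 4 → G → ℝ := fun i j x => (if i = 0 ∧ j = 1 then c else 0) -
      ((a j (x + e i) - a j x) - (a i (x + e j) - a i x))
    let B : Fin 4 → Fin 4 → G → ℝ := fun i j x => (if i = 2 ∧ j = 3 then c else 0) -
      ((b j (x + e i) - b j x) - (b i (x + e j) - b i x))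
    ∑ x, (A 0 1 x * B 2 3 (x + e 0 + e 1) - A 0 2 x * B 1 3 (x + e 0 + e 2) +
      A 0 3 x * B 1 2 (x + e 0 + e 3) + A 1 2 x * B 0 3 (x + e 1 + e 2) -
      A 1 3 x * B 0 2 (x + e 1 + e 3) + A 2 3 x * B 0 1 (x + e 2 + e 3)) =
      Fintype.card G * c ^ 2

end Pool.Agent.H289R3.FQ
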