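import Pool.Agent.H289R3.FQ.Flow
import Pool.Agent.H289R3.FQ.Tasks

set_option autoImplicit false
open Set Topology Filter

namespace Pool.Agent.H289R3.FQ

/-- the representative of an element of `ℝ/ℤ` in `[-1/2, 1/2)` -/
noncomputable def sm (c : T1) : ℝ := (AddCircle.equivIco 1 (-(1 / 2 : ℝ)) c : ℝ)

theorem coe_sm (c : T1) : ((sm c : ℝ) : T1) = c := by
  unfold sm
  exact AddCircle.coe_equivIco

theorem coe_eq_zero {x : ℝ} : (x : T1) = 0 ↔ ∃ n : ℤ, (n : ℝ) = x := by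
  rw [AddCircle.coe_eq_zero_iff]
  simp

theorem sm_cont {c : T1} (hc : ‖c‖ < 1 / 2) : ContinuousAt sm c := by
  have hne : c ≠ ((-(1 / 2 : ℝ) : ℝ) : T1) := by
    rintro rfl
    rw [(AddCircle.norm_coe_eq_abs_iff 1 one_ne_zero).2 (by norm_num)] at hc
    norm_num at hc
  exact continuous_subtype_val.continuousAt.comp
    (AddCircle.continuousAt_equivIco (1 : ℝ) (-(1 / 2 : ℝ)) hne)

/-- two real lifts of a circle valued function on a preconnected set differ by a constant -/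
theorem lift_unique {Z : Type*} [TopologicalSpace Z] {K : Set Z} (hK : IsPreconnected K)
    {l l' : Z → ℝ} (hl : ContinuousOn l K) (hl' : ContinuousOn l' K)
    (he : ∀ z ∈ K, ((l z : ℝ) : T1) = l' z) {z0 : Z} (hz0 : z0 ∈ K) :
    ∀ z ∈ K, l' z = l z + (l' z0 - l z0) := by
  have hi : (((l' z0 - l z0 : ℝ)) : T1) = 0 := by
    rw [AddCircle.coe_sub, he z0 hz0, sub_self]
  have := (AddCircle.isCoveringMap_coe (1 : ℝ)).eqOn_of_comp_eqOn hK hl'
    (hl.add (continuousOn_const (c := l' z0 - l z0))) (by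
      intro z hz
      change ((l' z : ℝ) : T1) = ((l z + (l' z0 - l z0) : ℝ) : T1)
      rw [AddCircle.coe_add, hi, add_zero, he z hz]) hz0 (by simp)
  exact this

variable {Y N : Type*} [TopologicalSpace Y] [TopologicalSpace N] {φ : ℝ → Y → Y} {f : Y → N}

/-- the circle valued function `D` has a real lift on the fibre over `n` -/
def Null (f : Y → N) (D : Y → T1) (n : N) : Prop :=
  ∃ l : Y → ℝ, ContinuousOn l (f ⁻¹' {n}) ∧ ∀ z ∈ f ⁻¹' {n}, ((l z : ℝ) : T1) = D z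

open Classical in
/-- the maximum over the fibre of a real lift of `D`, modulo one -/
noncomputable def val (f : Y → N) (D : Y → T1) (n : N) : T1 :=
  if h : Null f D n then ((sSup (h.choose '' (f ⁻¹' {n})) : ℝ) : T1) else 0

theorem sSup_add_const {A : Set ℝ} (hne : A.Nonempty) (hb : BddAbove A) (c : ℝ) :
    sSup ((fun x => x + c) '' A) = sSup A + c :=
  ((OrderIso.addRight c).map_csSup' hne hb).symm

theorem QFlow.val_eq (h : QFlow φ f) {D : Y → T1} {n : N} (hc : IsCompact (f ⁻¹' {n}))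
    {l : Y → ℝ} (hl : ContinuousOn l (f ⁻¹' {n})) (hD : ∀ z ∈ f ⁻¹' {n}, ((l z : ℝ) : T1) = D z) :
    val f D n = ((sSup (l '' (f ⁻¹' {n})) : ℝ) : T1) := by
  have hN : Null f D n := ⟨l, hl, hD⟩
  unfold val
  rw [dif_pos hN]
  obtain ⟨hl', hD'⟩ := hN.choose_spec
  set l' := hN.choose with hl'def
  rcases (f ⁻¹' {n}).eq_empty_or_nonempty with he | ⟨z0, hz0⟩
  · rw [he, image_empty, image_empty]
  · have hu := lift_unique (h.conn n) hl hl' (fun z hz => by rw [hD z hz, hD' z hz]) hz0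
    have himg : l' '' (f ⁻¹' {n}) = (fun x => x + (l' z0 - l z0)) '' (l '' (f ⁻¹' {n})) := by
      rw [image_image]
      exact image_congr hu
    have hi : (((l' z0 - l z0 : ℝ)) : T1) = 0 := by
      rw [AddCircle.coe_sub, hD z0 hz0, hD' z0 hz0, sub_self]
    rw [himg, sSup_add_const (Set.Nonempty.image l ⟨z0, hz0⟩)
      (hc.image_of_continuousOn hl).bddAbove,
      AddCircle.coe_add, hi, add_zero]

theorem null_nhds [NormalSpace Y] {D : Y → T1} (hD : Continuous D) {K : Set Y} (hK : IsClosed K)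
    {l : Y → ℝ} (hl : ContinuousOn l K) (hlD : ∀ z ∈ K, ((l z : ℝ) : T1) = D z) :
    ∃ (O : Set Y) (l' : Y → ℝ), IsOpen O ∧ K ⊆ O ∧ ContinuousOn l' O ∧
      ∀ z ∈ O, ((l' z : ℝ) : T1) = D z := by
  obtain ⟨g, hg⟩ := ContinuousMap.exists_restrict_eq hK ⟨K.domRestrict l, hl.domRestrict⟩
  have hgl : ∀ z ∈ K, g z = l z := by
    intro z hz
    exact congrArg (fun F : C(K, ℝ) => F ⟨z, hz⟩) hg
  have hcont : Continuous (fun z => D z - ((g z : ℝ) : T1)) :=
    hD.sub ((AddCircle.continuous_mk' (1 : ℝ)).comp g.continuous)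
  refine ⟨{z | ‖D z - ((g z : ℝ) : T1)‖ < 1 / 2}, fun z => g z + sm (D z - ((g z : ℝ) : T1)),
    isOpen_lt hcont.norm continuous_const, ?_, ?_, ?_⟩
  · intro z hz
    simp only [mem_ofPred_eq]
    rw [hgl z hz, hlD z hz, sub_self, norm_zero]
    norm_num
  · intro z hz
    apply ContinuousAt.continuousWithinAt
    exact g.continuous.continuousAt.add
      (ContinuousAt.comp (f := fun z => D z - ((g z : ℝ) : T1)) (sm_cont hz) hcont.continuousAt)
  · intro z _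
    simp only
    rw [AddCircle.coe_add, coe_sm]
    abel

theorem QFlow.val_cont [T2Space Y] [NormalSpace Y] [LocallyCompactSpace Y] [T2Space N]
    (h : QFlow φ f) {D : Y → T1} (hDc : Continuous D)
    {y0 : Y} (hc : IsCompact (f ⁻¹' {f y0})) (hN : Null f D (f y0)) :
    ContinuousAt (val f D) (f y0) ∧ ∀ᶠ n in 𝓝 (f y0), Null f D n := by
  obtain ⟨l0, hl0, hlD0⟩ := hN
  obtain ⟨O, l, hO, hKO, hl, hlD⟩ := null_nhds hDc hc.isClosed hl0 hlD0
  obtain ⟨L, hL, hLO, hev⟩ := h.stable hc hO hKO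
  have hcn : ∀ᶠ n in 𝓝 (f y0), IsCompact (f ⁻¹' {n}) := h.compact_nhds hc
  have hval : ∀ᶠ n in 𝓝 (f y0), val f D n = ((sSup (l '' (f ⁻¹' {n})) : ℝ) : T1) := by
    filter_upwards [hev, hcn] with n hn hn'
    exact h.val_eq hn' (hl.mono (hn.trans hLO)) (fun z hz => hlD z (hLO (hn hz)))
  refine ⟨?_, ?_⟩
  swap
  · filter_upwards [hev] with n hn
    exact ⟨l, hl.mono (hn.trans hLO), fun z hz => hlD z (hLO (hn hz))⟩
  set m0 := sSup (l '' (f ⁻¹' {f y0})) with hm0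
  have hlim : Tendsto (fun n => sSup (l '' (f ⁻¹' {n}))) (𝓝 (f y0)) (𝓝 m0) := by
    rw [Metric.tendsto_nhds]
    intro ε hε
    have hbd0 : BddAbove (l '' (f ⁻¹' {f y0})) :=
      (hc.image_of_continuousOn (hl.mono hKO)).bddAbove
    have hle0 : ∀ z ∈ f ⁻¹' {f y0}, l z ≤ m0 := fun z hz => le_csSup hbd0 ⟨z, hz, rfl⟩
    -- upper bound
    have hO1 : IsOpen (O ∩ l ⁻¹' Iio (m0 + ε / 2)) := hl.isOpen_inter_preimage hO isOpen_Iio
    obtain ⟨L1, -, hL1O, hev1⟩ := h.stable hc hO1 (fun z hz => ⟨hKO hz, by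
      change l z < m0 + ε / 2
      linarith [hle0 z hz]⟩)
    -- lower bound
    obtain ⟨z0, hz0, hz0m⟩ := hc.exists_isMaxOn ⟨y0, rfl⟩ (hl.mono hKO)
    have hz0' : m0 ≤ l z0 := csSup_le (Set.Nonempty.image l ⟨y0, rfl⟩)
      (by rintro _ ⟨z, hz, rfl⟩; exact hz0m hz)
    have hO2 : IsOpen (O ∩ l ⁻¹' Ioi (m0 - ε / 2)) := hl.isOpen_inter_preimage hO isOpen_Ioi
    have hev2 : ∀ᶠ n in 𝓝 (f y0), n ∈ f '' (O ∩ l ⁻¹' Ioi (m0 - ε / 2)) :=
      (h.fopen _ hO2).mem_nhds ⟨z0, ⟨hKO hz0, by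
        change m0 - ε / 2 < l z0
        linarith⟩, hz0⟩
    filter_upwards [hev, hev1, hev2, hcn] with n hn hn1 hn2 hn3
    obtain ⟨z, ⟨hzO, hzl⟩, hzn⟩ := hn2
    have hbd : BddAbove (l '' (f ⁻¹' {n})) :=
      (hn3.image_of_continuousOn (hl.mono (hn.trans hLO))).bddAbove
    have h1 : l z ≤ sSup (l '' (f ⁻¹' {n})) := le_csSup hbd ⟨z, hzn, rfl⟩
    have h2 : sSup (l '' (f ⁻¹' {n})) ≤ m0 + ε / 2 := by
      apply csSup_le (Set.Nonempty.image l ⟨z, hzn⟩)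
      rintro _ ⟨w, hw, rfl⟩
      exact (hL1O (hn1 hw)).2.le
    have h3 : m0 - ε / 2 < l z := hzl
    rw [Real.dist_eq, abs_lt]
    constructor <;> linarith
  rw [ContinuousAt, hval.self_of_nhds]
  exact (((AddCircle.continuous_mk' (1 : ℝ)).tendsto m0).comp hlim).congr' (by
    filter_upwards [hval] with n hn
    exact hn.symm)

theorem QFlow.val_translate (h : QFlow φ f) {D : Y → T1} {n n' : N}
    (hc : IsCompact (f ⁻¹' {n})) (hc' : IsCompact (f ⁻¹' {n'})) (hne : (f ⁻¹' {n}).Nonempty)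
    (τ : Y ≃ₜ Y) (hτ : ∀ z, f z = n ↔ f (τ z) = n') {c : ℝ}
    (hD : ∀ z ∈ f ⁻¹' {n}, D (τ z) = D z + (c : T1)) (hN : Null f D n) :
    Null f D n' ∧ val f D n' = val f D n + (c : T1) := by
  obtain ⟨l, hl, hlD⟩ := hN
  have hmem : ∀ z ∈ f ⁻¹' {n'}, τ.symm z ∈ f ⁻¹' {n} := by
    intro z hz
    change f (τ.symm z) = n
    rw [hτ, τ.apply_symm_apply]
    exact hz
  have hl' : ContinuousOn (fun z => l (τ.symm z) + c) (f ⁻¹' {n'}) :=
    (hl.comp τ.symm.continuous.continuousOn hmem).add continuousOn_const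
  have hlD' : ∀ z ∈ f ⁻¹' {n'}, ((l (τ.symm z) + c : ℝ) : T1) = D z := by
    intro z hz
    rw [AddCircle.coe_add, hlD _ (hmem z hz), ← hD _ (hmem z hz), τ.apply_symm_apply]
  refine ⟨⟨_, hl', hlD'⟩, ?_⟩
  rw [h.val_eq hc' hl' hlD', h.val_eq hc hl hlD]
  have himg : (fun z => l (τ.symm z) + c) '' (f ⁻¹' {n'}) =
      (fun x => x + c) '' (l '' (f ⁻¹' {n})) := by
    ext x
    constructor
    · rintro ⟨z, hz, rfl⟩
      exact ⟨_, ⟨_, hmem z hz, rfl⟩, rfl⟩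
    · rintro ⟨_, ⟨z, hz, rfl⟩, rfl⟩
      refine ⟨τ z, (hτ z).1 hz, ?_⟩
      simp only [τ.symm_apply_apply]
  rw [himg, sSup_add_const (hne.image _) (hc.image_of_continuousOn hl).bddAbove,
    AddCircle.coe_add]

end Pool.Agent.H289R3.FQ
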