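import Pool.Agent.H289R3.FQ.Flow

set_option autoImplicit false
open Set Topology Filter

namespace Pool.Agent.H289R3.FQ

variable {Y N : Type*} [TopologicalSpace Y] [TopologicalSpace N] {φ : ℝ → Y → Y} {f : Y → N}

theorem QFlow.compact_of_periodic (h : QFlow φ f) {y : Y} {T : ℝ} (hT0 : T ≠ 0)
    (hT : φ T y = y) : IsCompact (f ⁻¹' {f y}) := by
  have hT' : φ |T| y = y := by
    rcases le_total 0 T with h0 | h0
    · rwa [abs_of_nonneg h0]
    · rw [abs_of_nonpos h0]
      conv_lhs => rw [← hT]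
      rw [← h.add, neg_add_cancel, h.zero]
  have hper : Function.Periodic (fun t => φ t y) |T| := by
    intro s
    simp only
    rw [h.add, hT']
  rw [h.fibre_eq]
  have : range (fun t => φ t y) = (fun t => φ t y) '' Icc 0 |T| := by
    apply Subset.antisymm
    · rintro _ ⟨t, rfl⟩
      obtain ⟨s, hs, hs'⟩ := hper.exists_mem_Ico₀ (abs_pos.2 hT0) t
      exact ⟨s, ⟨hs.1, hs.2.le⟩, hs'.symm⟩
    · rintro _ ⟨t, -, rfl⟩
      exact ⟨t, rfl⟩
  rw [this]
  exact isCompact_Icc.image (h.orbit_cont y)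

/-- the pullback of `f : Y → N` along `e : N' → N` -/
abbrev PB {Y N N' : Type*} (f : Y → N) (e : N' → N) : Type _ := {p : Y × N' // f p.1 = e p.2}

/-- the pulled back flow -/
def PB.flow {N' : Type*} (h : QFlow φ f) (e : N' → N) (t : ℝ) (p : PB f e) : PB f e :=
  ⟨(φ t p.1.1, p.1.2), by rw [h.f_flow]; exact p.2⟩

theorem QFlow.pull {N' : Type*} [TopologicalSpace N'] (h : QFlow φ f) {e : N' → N}
    (he : Continuous e) : QFlow (PB.flow h e) (fun p : PB f e => p.1.2) where
  cont := by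
    apply Continuous.subtype_mk
    exact (h.cont.comp (continuous_fst.prodMk
      (continuous_fst.comp (continuous_subtype_val.comp continuous_snd)))).prodMk
      (continuous_snd.comp (continuous_subtype_val.comp continuous_snd))
  zero p := Subtype.ext (Prod.ext (h.zero _) rfl)
  add s t p := Subtype.ext (Prod.ext (h.add _ _ _) rfl)
  fcont := continuous_snd.comp continuous_subtype_val
  fopen := by
    intro O hO
    obtain ⟨O', hO', rfl⟩ := isOpen_induced_iff.1 hO
    rw [isOpen_iff_mem_nhds]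
    rintro _ ⟨p, hp, rfl⟩
    obtain ⟨A, B, hA, hB, hpA, hpB, hAB⟩ := isOpen_prod_iff.1 hO' p.1.1 p.1.2 hp
    have h1 : B ∩ e ⁻¹' (f '' A) ∈ 𝓝 p.1.2 :=
      (hB.inter ((h.fopen A hA).preimage he)).mem_nhds ⟨hpB, p.1.1, hpA, p.2⟩
    filter_upwards [h1] with n hn
    obtain ⟨hn1, q, hq, hqe⟩ := hn
    exact ⟨⟨(q, n), hqe⟩, hAB (Set.mk_mem_prod hq hn1), rfl⟩
  fibre := by
    intro x y
    constructor
    · intro hxy
      have hxy' : x.1.2 = y.1.2 := hxy
      have : f x.1.1 = f y.1.1 := by rw [x.2, y.2, hxy']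
      obtain ⟨t, ht⟩ := (h.fibre _ _).1 this
      exact ⟨t, Subtype.ext (Prod.ext ht hxy')⟩
    · rintro ⟨t, rfl⟩
      rfl
  box := by
    classical
    intro x hx
    obtain ⟨t, ht⟩ := hx
    have hx' : ∃ t, φ t x.1.1 ≠ x.1.1 := ⟨t, fun hh => ht (Subtype.ext (Prod.ext hh rfl))⟩
    obtain ⟨s, U, hU, hxU, hs, hsf, hsx, hW⟩ := h.box x.1.1 hx'
    let s' : N' → PB f e := fun n => if hn : f (s (e n)) = e n then ⟨(s (e n), n), hn⟩ else x
    have hs' : ∀ n, e n ∈ U → (s' n).1 = (s (e n), n) := by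
      intro n hn
      have := hsf _ hn
      simp only [s', this, dif_pos]
    refine ⟨s', e ⁻¹' U, hU.preimage he, ?_, ?_, ?_, ?_, ?_⟩
    · change e x.1.2 ∈ U
      rw [← x.2]
      exact hxU
    · refine (Topology.IsInducing.continuousOn_iff
        (⟨rfl⟩ : Topology.IsInducing (Subtype.val : PB f e → Y × N'))).2 ?_
      have : ContinuousOn (fun n => (s (e n), n)) (e ⁻¹' U) :=
        (hs.comp he.continuousOn (fun n hn => hn)).prodMk continuousOn_id
      exact this.congr (fun n hn => hs' n hn)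
    · intro n hn
      change (s' n).1.2 = n
      rw [hs' n hn]
    · have hxU' : e x.1.2 ∈ U := by rw [← x.2]; exact hxU
      apply Subtype.ext
      rw [hs' _ hxU']
      apply Prod.ext
      · change s (e x.1.2) = x.1.1
        rw [← x.2, hsx]
      · rfl
    · intro ε hε
      obtain ⟨W, hWn, hW⟩ := hW ε hε
      refine ⟨(fun p : PB f e => p.1.1) ⁻¹' W,
        (continuous_fst.comp continuous_subtype_val).continuousAt hWn, ?_⟩
      intro w hw
      obtain ⟨h1, t, ht, h2⟩ := hW w.1.1 hw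
      have hwU : e w.1.2 ∈ U := by rw [← w.2]; exact h1
      refine ⟨hwU, t, ht, ?_⟩
      apply Subtype.ext
      apply Prod.ext
      · change w.1.1 = φ t (s' w.1.2).1.1
        rw [hs' _ hwU]
        conv_lhs => rw [h2, w.2]
      · change w.1.2 = (s' w.1.2).1.2
        rw [hs' _ hwU]

/-- restriction of a flow to the part over an open subset of the base -/
def RS.flow (h : QFlow φ f) (B : Set N) (t : ℝ) (p : {y : Y // f y ∈ B}) : {y : Y // f y ∈ B} :=
  ⟨φ t p.1, by rw [h.f_flow]; exact p.2⟩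

theorem QFlow.restrict (h : QFlow φ f) {B : Set N} (hB : IsOpen B) :
    QFlow (RS.flow h B) (fun p : {y : Y // f y ∈ B} => f p.1) where
  cont := by
    apply Continuous.subtype_mk
    exact h.cont.comp (continuous_fst.prodMk (continuous_subtype_val.comp continuous_snd))
  zero p := Subtype.ext (h.zero _)
  add s t p := Subtype.ext (h.add _ _ _)
  fcont := h.fcont.comp continuous_subtype_val
  fopen := h.fopen.comp (hB.preimage h.fcont).isOpenMap_subtype_val
  fibre := by
    intro x y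
    rw [h.fibre x.1 y.1]
    constructor
    · rintro ⟨t, ht⟩
      exact ⟨t, Subtype.ext ht⟩
    · rintro ⟨t, rfl⟩
      exact ⟨t, rfl⟩
  box := by
    classical
    intro x hx
    obtain ⟨t, ht⟩ := hx
    have hx' : ∃ t, φ t x.1 ≠ x.1 := ⟨t, fun hh => ht (Subtype.ext hh)⟩
    obtain ⟨s, U, hU, hxU, hs, hsf, hsx, hW⟩ := h.box x.1 hx'
    let s' : N → {y : Y // f y ∈ B} := fun n => if hn : f (s n) ∈ B then ⟨s n, hn⟩ else x
    have hs' : ∀ n, n ∈ U ∩ B → (s' n).1 = s n := by
      intro n hn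
      have : f (s n) ∈ B := by rw [hsf _ hn.1]; exact hn.2
      simp only [s', this, dif_pos]
    refine ⟨s', U ∩ B, hU.inter hB, ⟨hxU, x.2⟩, ?_, ?_, ?_, ?_⟩
    · refine (Topology.IsInducing.continuousOn_iff
        (⟨rfl⟩ : Topology.IsInducing (Subtype.val : {y : Y // f y ∈ B} → Y))).2 ?_
      exact (hs.mono inter_subset_left).congr (fun n hn => hs' n hn)
    · intro n hn
      change f (s' n).1 = n
      rw [hs' n hn, hsf n hn.1]
    · apply Subtype.ext
      rw [hs' _ ⟨hxU, x.2⟩, hsx]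
    · intro ε hε
      obtain ⟨W, hWn, hW⟩ := hW ε hε
      refine ⟨Subtype.val ⁻¹' W, continuous_subtype_val.continuousAt hWn, ?_⟩
      intro w hw
      obtain ⟨h1, t, ht, h2⟩ := hW w.1 hw
      refine ⟨⟨h1, w.2⟩, t, ht, ?_⟩
      apply Subtype.ext
      change w.1 = φ t (s' (f w.1)).1
      rw [hs' _ ⟨h1, w.2⟩]
      exact h2

end Pool.Agent.H289R3.FQ
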